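import Pool.Agent.Helper23_LAP.Stmts

/-!
# LAP ITR: the last level
-/

set_option autoImplicit false

namespace Pool.Agent.LAP.H56

open scoped Classical

theorem pD_last {k L : ℕ} (hk : k ≤ 2 ^ L) : pD k L ≤ 1 := by
  unfold pD
  rw [div_le_one (by positivity)]
  exact_mod_cast hk

theorem itr (hS : STPStmt) (hI : INIStmt) : ITRStmt := by
  intro V _ E k L q hL hk hq hE
  have hL1 : 1 ≤ L := by omega
  have hL1' : (1 : ℝ) ≤ (L : ℝ) := by exact_mod_cast hL1
  have hp : (1 : ℝ) ≤ (L : ℝ) ^ 19 := one_le_pow₀ hL1'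
  have hpL : pD k L ≤ 2 * (L : ℝ) ^ 19 := by
    have := pD_last hk
    linarith
  have hex : ∃ m, pD k m ≤ 2 * (L : ℝ) ^ 19 := ⟨L, hpL⟩
  have hm : Nat.find hex ≤ L := Nat.find_min' hex hpL
  have key : ∀ i, i ≤ Nat.find hex → ∃ (R : Finset (V × V)) (K : Fin q → Finset (V × V))
      (X Y : Fin q → Finset V), R ⊆ E ∧ DSt E R k L q i K X Y := by
    intro i
    induction i with
    | zero =>
      intro _
      exact ⟨E, _, _, _, Finset.Subset.refl _, hI V E k L q hL1 hE⟩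
    | succ i ih =>
      intro hi
      obtain ⟨R, K, X, Y, hR, hD⟩ := ih (by omega)
      have hlt : ¬ pD k i ≤ 2 * (L : ℝ) ^ 19 := Nat.find_min hex (by omega)
      have hge : (L : ℝ) ^ 19 ≤ pD k i := by
        push Not at hlt
        linarith
      obtain ⟨R₁, K₁, X₁, Y₁, h1, h2⟩ :=
        hS V E R k L q i K X Y hL hk hq (by omega) hge hE hR hD
      exact ⟨R₁, K₁, X₁, Y₁, h1, h2⟩
  obtain ⟨R, K, X, Y, _, h⟩ := key _ le_rfl
  exact ⟨Nat.find hex, hm, Nat.find_spec hex, R, K, X, Y, h⟩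

end Pool.Agent.LAP.H56
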