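import Pool.Agent.Helper23_LAP.Stmts

/-!
# LAP RND: the round lemma
-/

set_option autoImplicit false

namespace Pool.Agent.LAP.H56

open scoped Classical

theorem pow_le_three {L m : ℕ} (hL : 1 ≤ L) (hm : m ≤ L) : (1 + 1 / (L : ℝ)) ^ m ≤ 3 := by
  have hL0 : (0 : ℝ) < (L : ℝ) := by exact_mod_cast hL
  have h1 : 1 + 1 / (L : ℝ) ≤ Real.exp (1 / (L : ℝ)) := by
    have := Real.add_one_le_exp (1 / (L : ℝ))
    linarith
  have h0 : (0 : ℝ) ≤ 1 + 1 / (L : ℝ) := by positivity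
  calc (1 + 1 / (L : ℝ)) ^ m ≤ Real.exp (1 / (L : ℝ)) ^ m := pow_le_pow_left₀ h0 h1 m
    _ = Real.exp (m * (1 / (L : ℝ))) := by rw [← Real.exp_nat_mul]
    _ ≤ Real.exp 1 := by
      apply Real.exp_le_exp.mpr
      rw [mul_one_div, div_le_one hL0]
      exact_mod_cast hm
    _ ≤ 3 := by
      have := Real.exp_one_lt_d9
      linarith

theorem pT_le {k L q m : ℕ} (hL : 1 ≤ L) (hq : q * L ^ 16 ≤ k) (hm : m ≤ L)
    (hp : pD k m ≤ 2 * (L : ℝ) ^ 19) : pT L q m ≤ 12 * (L : ℝ) ^ 3 := by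
  have hL0 : (0 : ℝ) < (L : ℝ) := by exact_mod_cast hL
  have h3 := pow_le_three hL hm
  have hq' : (q : ℝ) * (L : ℝ) ^ 16 ≤ k := by exact_mod_cast hq
  have h2 : (0 : ℝ) < 2 ^ m := by positivity
  have hqm : (q : ℝ) / 2 ^ m ≤ 2 * (L : ℝ) ^ 3 := by
    unfold pD at hp
    rw [div_le_iff₀ h2] at hp ⊢
    have h16 : (0 : ℝ) < (L : ℝ) ^ 16 := by positivity
    have : (q : ℝ) * (L : ℝ) ^ 16 ≤ 2 * (L : ℝ) ^ 3 * 2 ^ m * (L : ℝ) ^ 16 := by
      calc (q : ℝ) * (L : ℝ) ^ 16 ≤ k := hq'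
        _ ≤ 2 * (L : ℝ) ^ 19 * 2 ^ m := hp
        _ = 2 * (L : ℝ) ^ 3 * 2 ^ m * (L : ℝ) ^ 16 := by ring
    exact le_of_mul_le_mul_right this h16
  unfold pT
  have hnn : (0 : ℝ) ≤ (q : ℝ) / 2 ^ m + 2 * (L : ℝ) ^ 3 := by positivity
  calc (1 + 1 / (L : ℝ)) ^ m * ((q : ℝ) / 2 ^ m + 2 * (L : ℝ) ^ 3)
      ≤ 3 * ((q : ℝ) / 2 ^ m + 2 * (L : ℝ) ^ 3) := mul_le_mul_of_nonneg_right h3 hnn
    _ ≤ 12 * (L : ℝ) ^ 3 := by linarith

/-- The count of the classes missing at a vertex. -/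
theorem few_le {k L q m : ℕ} (hL : 1 ≤ L) (hq : q * L ^ 16 ≤ k) (hm : m ≤ L)
    (hp : pD k m ≤ 2 * (L : ℝ) ^ 19) (P Q : Fin q → Prop)
    (h1 : (((Finset.univ.filter fun c => Q c).card : ℕ) : ℝ) ≤ pT L q m)
    (h2 : (((Finset.univ.filter fun c => P c ∧ ¬ Q c).card : ℕ) : ℝ) ≤ 2 * (L : ℝ) ^ 2 * m) :
    (Finset.univ.filter fun c => P c).card ≤ 14 * L ^ 3 := by
  have hL0 : (0 : ℝ) < (L : ℝ) := by exact_mod_cast hL
  have hsub : (Finset.univ.filter fun c => P c) ⊆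
      (Finset.univ.filter fun c => Q c) ∪ (Finset.univ.filter fun c => P c ∧ ¬ Q c) := by
    intro c hc
    simp only [Finset.mem_filter, Finset.mem_univ, true_and, Finset.mem_union] at hc ⊢
    by_cases hQ : Q c
    · exact Or.inl hQ
    · exact Or.inr ⟨hc, hQ⟩
  have hc := (Finset.card_le_card hsub).trans (Finset.card_union_le _ _)
  have hc' : (((Finset.univ.filter fun c => P c).card : ℕ) : ℝ) ≤
      (((Finset.univ.filter fun c => Q c).card : ℕ) : ℝ) +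
      (((Finset.univ.filter fun c => P c ∧ ¬ Q c).card : ℕ) : ℝ) := by exact_mod_cast hc
  have hT := pT_le hL hq hm hp
  have hm' : (m : ℝ) ≤ (L : ℝ) := by exact_mod_cast hm
  have h3 : 2 * (L : ℝ) ^ 2 * m ≤ 2 * (L : ℝ) ^ 3 := by
    have : 2 * (L : ℝ) ^ 2 * m ≤ 2 * (L : ℝ) ^ 2 * L :=
      mul_le_mul_of_nonneg_left hm' (by positivity)
    calc 2 * (L : ℝ) ^ 2 * m ≤ 2 * (L : ℝ) ^ 2 * L := this
      _ = 2 * (L : ℝ) ^ 3 := by ring
  have : (((Finset.univ.filter fun c => P c).card : ℕ) : ℝ) ≤ 14 * (L : ℝ) ^ 3 := by linarith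
  exact_mod_cast this

/-- Count over `ℕ` against count over `Fin q`. -/
theorem ncard_fin {q : ℕ} (P : Fin q → Prop) (P' : ℕ → Prop)
    (h : ∀ (c : ℕ) (hc : c < q), P' c → P ⟨c, hc⟩) :
    {c | c < q ∧ P' c}.ncard ≤ (Finset.univ.filter fun c => P c).card := by
  have hsub : {c | c < q ∧ P' c} ⊆
      (((Finset.univ.filter fun c => P c).image fun c : Fin q => (c : ℕ) : Finset ℕ) : Set ℕ) := by
    rintro c ⟨hc, hP⟩
    simp only [Finset.coe_image, Set.mem_image, Finset.mem_coe, Finset.mem_filter,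
      Finset.mem_univ, true_and]
    exact ⟨⟨c, hc⟩, h c hc hP, rfl⟩
  calc {c | c < q ∧ P' c}.ncard
      ≤ (((Finset.univ.filter fun c => P c).image fun c : Fin q => (c : ℕ) : Finset ℕ) :
          Set ℕ).ncard := Set.ncard_le_ncard hsub (Finset.finite_toSet _)
    _ = ((Finset.univ.filter fun c => P c).image fun c : Fin q => (c : ℕ)).card :=
        Set.ncard_coe_finset _
    _ ≤ (Finset.univ.filter fun c => P c).card := Finset.card_image_le

theorem mem_dom {α β : Type} {R : Finset (α × β)} {x : α} : x ∈ dom R ↔ ∃ y, (x, y) ∈ R := by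
  unfold dom
  simp only [Finset.mem_image, Prod.exists]
  constructor
  · rintro ⟨a, b, h, rfl⟩
    exact ⟨b, h⟩
  · rintro ⟨y, h⟩
    exact ⟨x, y, h, rfl⟩

theorem mem_ran {α β : Type} {R : Finset (α × β)} {y : β} : y ∈ ran R ↔ ∃ x, (x, y) ∈ R := by
  unfold ran
  simp only [Finset.mem_image, Prod.exists]
  constructor
  · rintro ⟨a, b, h, rfl⟩
    exact ⟨a, h⟩
  · rintro ⟨x, h⟩
    exact ⟨x, y, h, rfl⟩

theorem rnd (hI : ITRStmt) : RNDStmt := by
  intro k L hL hk V _ E hE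
  have hL1 : 1 ≤ L := by omega
  have : Fintype V := Fintype.ofFinite V
  set q := k / L ^ 16 with hqd
  have hq : q * L ^ 16 ≤ k := Nat.div_mul_le_self k (L ^ 16)
  have hE' : Reg E.toFinset k := by
    constructor
    · intro x
      rw [← (hE x).1, ← Set.ncard_coe_finset]
      congr 1
      ext y
      simp [out, Pool.Agent.LAX.out]
    · intro y
      rw [← (hE y).2, ← Set.ncard_coe_finset]
      congr 1
      ext x
      simp [inn, Pool.Agent.LAX.inn]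
  obtain ⟨m, hm, hp, R, K, X, Y, hD⟩ := hI V E.toFinset k L q hL hk hq hE'
  refine ⟨fun c => if h : c < q then ((K ⟨c, h⟩ : Finset (V × V)) : Set (V × V)) else ∅,
    ?_, ?_, ?_⟩
  · intro c hc
    simp only [hc, dif_pos]
    refine ⟨?_, ?_, ?_⟩
    · intro a ha
      have := hD.sub ⟨c, hc⟩ (Finset.mem_coe.1 ha)
      simpa using this
    · have := hD.pi ⟨c, hc⟩
      exact ⟨fun x y y' h1 h2 => this.1 x y y' (Finset.mem_coe.1 h1) (Finset.mem_coe.1 h2),
        fun x x' y h1 h2 => this.2 x x' y (Finset.mem_coe.1 h1) (Finset.mem_coe.1 h2)⟩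
    · have := hD.ac ⟨c, hc⟩
      intro v hv
      exact this v hv
  · intro c hc d hd hcd
    simp only [hc, hd, dif_pos]
    have := hD.dj ⟨c, hc⟩ ⟨d, hd⟩ (by simpa using hcd)
    exact Finset.disjoint_coe.2 this
  · intro v
    constructor
    · refine (ncard_fin (fun c : Fin q => v ∉ dom (K c)) _ ?_).trans
        (few_le hL1 hq hm hp _ (fun c => v ∈ X c) (by convert hD.st.tx v) (by convert hD.lx v))
      intro c hc h
      simp only [hc, dif_pos] at h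
      rw [mem_dom]
      rintro ⟨y, hy⟩
      exact h ⟨y, Finset.mem_coe.2 hy⟩
    · refine (ncard_fin (fun c : Fin q => v ∉ ran (K c)) _ ?_).trans
        (few_le hL1 hq hm hp _ (fun c => v ∈ Y c) (by convert hD.st.ty v) (by convert hD.ly v))
      intro c hc h
      simp only [hc, dif_pos] at h
      rw [mem_ran]
      rintro ⟨y, hy⟩
      exact h ⟨y, Finset.mem_coe.2 hy⟩

end Pool.Agent.LAP.H56
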